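import Pool.Agent.W879.CL.Stab

set_option autoImplicit false

/-!
A stable (even superstable) continuous theory which does not have enough `d`-definable sets.

The models of the theory are sets with the discrete `{0,1}`-valued metric and a predicate with
values in `[0,1]` such that infinitely many elements have values in each nonempty open subset of
`[0,1]`. Its space of `1`-types over `∅` is the interval `[0,1]` with the usual topology and the
discrete metric. The definitions are in `Pool/Agent/W879/CL/Defs.lean`.
-/

namespace Pool.Agent.Results.MP_cc3859_lc.SuperstableWithoutDefinableSets

open Cardinal Pool.Agent.W879.CL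

/-- There is a complete continuous theory `T` in a countable signature which is `lam`-stable for
every cardinal `lam` with `2^ℵ₀ ≤ lam` and in which no formula has the order property, but which does
not have enough `d`-definable sets. -/
theorem result : ∃ (L : Signature) (T : Set (Fm L Empty 0)),
    Countable L.Fn ∧ Countable L.Pr ∧ IsComplete T ∧
    (∀ lam : Cardinal.{0}, 2 ^ ℵ₀ ≤ lam → StableIn T lam) ∧
    (∀ (n m : ℕ) (φ : Fm L Empty (n + m)), StableFormula T φ) ∧
    ¬ EnoughDDefinable T :=
  ⟨L0, T0, inferInstanceAs (Countable Empty), inferInstanceAs (Countable Unit), complete_T0,
    fun _ h => stableIn_T0 h, fun _ _ φ => stableFormula_T0 φ, not_enough_T0⟩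

end Pool.Agent.Results.MP_cc3859_lc.SuperstableWithoutDefinableSets
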